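import Mathlib

/-!
Real-rootedness of the toric g-contribution polynomials, case `1 ≤ j`:
the polynomial `u^n * g(1 - 1/u^2)` comes from a derivative of `(u^2-1)^(n-j)` by operators
`u d/du + c` with `c ≥ 1`.
-/

namespace R123.Toric

open Polynomial Finset

/-- The polynomial with coefficient `c k` at `X^(n-2k)`, `k ≤ n/2`. -/
noncomputable def P (n : ℕ) (c : ℕ → ℝ) : ℝ[X] :=
  ∑ k ∈ range (n / 2 + 1), C (c k) * X ^ (n - 2 * k)

theorem splits_derivative {f : ℝ[X]} (hf : f.Splits) : (derivative f).Splits := by
  by_cases h0 : f.natDegree = 0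
  · rw [natDegree_eq_zero] at h0
    obtain ⟨a, rfl⟩ := h0
    simp
  rw [splits_iff_card_roots] at hf ⊢
  have h1 := card_roots_le_derivative f
  have h2 : (derivative f).natDegree ≤ f.natDegree - 1 := natDegree_derivative_le f
  have h3 := card_roots' (derivative f)
  omega

theorem splits_iterate_derivative {f : ℝ[X]} (hf : f.Splits) (r : ℕ) :
    (derivative^[r] f).Splits := by
  induction r with
  | zero => simpa using hf
  | succ r ih =>
    rw [Function.iterate_succ_apply']
    exact splits_derivative ih

theorem splits_theta {f : ℝ[X]} (hf : f.Splits) (c : ℕ) (hc : 1 ≤ c) :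
    (X * derivative f + C (c : ℝ) * f).Splits := by
  have h : derivative (X ^ c * f) = X ^ (c - 1) * (X * derivative f + C (c : ℝ) * f) := by
    rw [derivative_mul, derivative_X_pow]
    obtain ⟨d, rfl⟩ : ∃ d, c = d + 1 := ⟨c - 1, by omega⟩
    simp only [Nat.add_sub_cancel]
    simp
    ring
  have h2 := splits_derivative (((Splits.X_pow (R := ℝ) c)).mul hf)
  rw [h, splits_mul'] at h2
  rcases h2.2 with h3 | h3
  · exact h3
  · exact absurd h3 (pow_ne_zero _ X_ne_zero)

theorem theta_P (n : ℕ) (c : ℕ → ℝ) (a : ℝ) :
    X * derivative (P n c) + C a * P n c =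
      P n (fun k => (((n : ℝ) - 2 * k) + a) * c k) := by
  unfold P
  rw [derivative_sum, mul_sum, mul_sum, ← sum_add_distrib]
  apply sum_congr rfl
  intro k hk
  have hk2 : 2 * k ≤ n := by
    have := mem_range.mp hk
    omega
  rw [derivative_C_mul_X_pow]
  beta_reduce
  by_cases h : n - 2 * k = 0
  · have : (n : ℝ) - 2 * k = 0 := by
      have : n = 2 * k := by omega
      subst this
      push_cast
      ring
    rw [h, this]
    simp [mul_comm]
  · obtain ⟨m, hm⟩ : ∃ m, n - 2 * k = m + 1 := ⟨n - 2 * k - 1, by omega⟩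
    have : (n : ℝ) - 2 * k = m + 1 := by
      have h1 : n = m + 1 + 2 * k := by omega
      rw [h1]
      push_cast
      ring
    rw [hm, this]
    simp only [Nat.add_sub_cancel, map_mul, map_add, map_one, map_natCast, Nat.cast_add,
      Nat.cast_one]
    ring

/-- The coefficients of the derivative of order `n-2j` of `(X^2-1)^(n-j)`. -/
def hc (n j k : ℕ) : ℝ :=
  (-1) ^ k * (n - j).choose k * (2 * (n - j - k)).descFactorial (n - 2 * j)

theorem iter_eq (n j : ℕ) (hj : 2 * j ≤ n) :
    derivative^[n - 2 * j] (((X : ℝ[X]) ^ 2 - 1) ^ (n - j)) = P n (hc n j) := by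
  have h1 : ((X : ℝ[X]) ^ 2 - 1) ^ (n - j) =
      ∑ k ∈ range (n - j + 1), C ((-1) ^ k * ((n - j).choose k : ℝ)) *
        X ^ (2 * (n - j - k)) := by
    rw [sub_eq_add_neg, add_comm, add_pow]
    apply sum_congr rfl
    intro k _
    rw [← pow_mul]
    simp only [map_mul, map_pow, map_neg, map_one, map_natCast]
    ring
  rw [h1, iterate_derivative_sum]
  have h2 : ∀ k, derivative^[n - 2 * j] (C ((-1) ^ k * ((n - j).choose k : ℝ)) *
      X ^ (2 * (n - j - k))) = C (hc n j k) * X ^ (2 * (n - j - k) - (n - 2 * j)) := by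
    intro k
    rw [iterate_derivative_C_mul, iterate_derivative_X_pow_eq_C_mul, ← mul_assoc, ← C_mul]
    rfl
  rw [sum_congr rfl fun k _ => h2 k]
  unfold P
  have h3 : range (n / 2 + 1) ⊆ range (n - j + 1) := by
    intro k hk
    rw [mem_range] at hk ⊢
    omega
  rw [← sum_subset h3]
  · apply sum_congr rfl
    intro k hk
    rw [mem_range] at hk
    have : 2 * (n - j - k) - (n - 2 * j) = n - 2 * k := by omega
    rw [this]
  · intro k hk hk2
    rw [mem_range] at hk hk2
    have : (2 * (n - j - k)).descFactorial (n - 2 * j) = 0 := by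
      apply Nat.descFactorial_eq_zero_iff_lt.mpr
      omega
    unfold hc
    rw [this]
    simp

theorem splits_H (n j : ℕ) (hj : 2 * j ≤ n) : (P n (hc n j)).Splits := by
  rw [← iter_eq n j hj]
  apply splits_iterate_derivative
  apply Splits.pow
  have : ((X : ℝ[X]) ^ 2 - 1) = (X - C 1) * (X - C (-1)) := by
    simp only [map_one, map_neg]
    ring
  rw [this]
  exact (Splits.X_sub_C _).mul (Splits.X_sub_C _)

theorem splits_step (n j : ℕ) (hj : 2 * j ≤ n) (r : ℕ) (hr : r + 1 ≤ j) :
    (P n (fun k => (∏ i ∈ range r, ((n : ℝ) - k - i)) * hc n j k)).Splits := by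
  induction r with
  | zero => simpa using splits_H n j hj
  | succ r ih =>
    have h := splits_theta (ih (by omega)) (n - 2 * r) (by omega)
    rw [theta_P] at h
    have h2 : P n (fun k => (∏ i ∈ range (r + 1), ((n : ℝ) - k - i)) * hc n j k) =
        C (1 / 2) * P n (fun k => (((n : ℝ) - 2 * k) + ((n - 2 * r : ℕ) : ℝ)) *
          ((∏ i ∈ range r, ((n : ℝ) - k - i)) * hc n j k)) := by
      unfold P
      rw [mul_sum]
      apply sum_congr rfl
      intro k _
      rw [← mul_assoc, ← C_mul]
      congr 2
      beta_reduce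
      rw [prod_range_succ, Nat.cast_sub (by omega : 2 * r ≤ n)]
      push_cast
      ring
    rw [h2]
    exact h.C_mul _

/-- the signed coefficients -/
def A (n j k : ℕ) : ℝ := (-1) ^ k * ((catalan (n - k - j) * (n - k).choose k : ℕ) : ℝ)

theorem catalan_fac (m : ℕ) : catalan m * (m + 1).factorial * m.factorial =
    (2 * m).factorial := by
  have h1 := succ_mul_catalan_eq_centralBinom m
  have h2 : m.centralBinom * m.factorial * m.factorial = (2 * m).factorial := by
    rw [Nat.centralBinom_eq_two_mul_choose]
    have := Nat.choose_mul_factorial_mul_factorial (n := 2 * m) (k := m) (by omega)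
    rw [show 2 * m - m = m by omega] at this
    exact this
  rw [← h2, ← h1, Nat.factorial_succ]
  ring

theorem coeff_nat (n j k : ℕ) (hj : 1 ≤ j) (hj2 : 2 * j ≤ n) (hk : 2 * k ≤ n) :
    (n - j).choose k * (2 * (n - j - k)).descFactorial (n - 2 * j) *
      (n - k).descFactorial (j - 1) =
    (n - j).factorial * (catalan (n - k - j) * (n - k).choose k) := by
  obtain ⟨m, hm⟩ : ∃ m, m = n - j - k := ⟨_, rfl⟩
  have hm2 : n - k - j = m := by omega
  rw [← hm, hm2]
  have e1 : (n - j).choose k * k.factorial * m.factorial = (n - j).factorial := by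
    have := Nat.choose_mul_factorial_mul_factorial (n := n - j) (k := k) (by omega)
    rw [← hm] at this
    exact this
  have e2 : (n - 2 * k).factorial * (2 * m).descFactorial (n - 2 * j) = (2 * m).factorial := by
    have := Nat.factorial_mul_descFactorial (n := 2 * m) (k := n - 2 * j) (by omega)
    rw [show 2 * m - (n - 2 * j) = n - 2 * k by omega] at this
    exact this
  have e3 : (m + 1).factorial * (n - k).descFactorial (j - 1) = (n - k).factorial := by
    have := Nat.factorial_mul_descFactorial (n := n - k) (k := j - 1) (by omega)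
    rw [show n - k - (j - 1) = m + 1 by omega] at this
    exact this
  have e4 : (n - k).choose k * k.factorial * (n - 2 * k).factorial = (n - k).factorial := by
    have := Nat.choose_mul_factorial_mul_factorial (n := n - k) (k := k) (by omega)
    rw [show n - k - k = n - 2 * k by omega] at this
    exact this
  have e5 := catalan_fac m
  have hpos : 0 < k.factorial * m.factorial * (n - 2 * k).factorial * (m + 1).factorial := by
    positivity
  apply Nat.eq_of_mul_eq_mul_right hpos
  calc _ = ((n - j).choose k * k.factorial * m.factorial) *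
        ((n - 2 * k).factorial * (2 * m).descFactorial (n - 2 * j)) *
        ((m + 1).factorial * (n - k).descFactorial (j - 1)) := by ring
    _ = (n - j).factorial * (2 * m).factorial * (n - k).factorial := by rw [e1, e2, e3]
    _ = (n - j).factorial * (catalan m * (m + 1).factorial * m.factorial) *
        ((n - k).choose k * k.factorial * (n - 2 * k).factorial) := by rw [e4, e5]
    _ = _ := by ring

theorem prod_eq_desc (m r : ℕ) (h : r ≤ m) :
    ∏ i ∈ range r, ((m : ℝ) - i) = (m.descFactorial r : ℝ) := by
  induction r with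
  | zero => simp
  | succ r ih =>
    rw [prod_range_succ, ih (by omega), Nat.descFactorial_succ, Nat.cast_mul,
      Nat.cast_sub (by omega)]
    ring

/-- For `1 ≤ j ≤ n/2` the polynomial `∑ (-1)^k C_{n-k-j} binom(n-k,k) u^(n-2k)` splits. -/
theorem splits_pos (n j : ℕ) (hj : 1 ≤ j) (hj2 : 2 * j ≤ n) : (P n (A n j)).Splits := by
  have h := splits_step n j hj2 (j - 1) (by omega)
  have h2 : P n (A n j) = C (1 / ((n - j).factorial : ℝ)) *
      P n (fun k => (∏ i ∈ range (j - 1), ((n : ℝ) - k - i)) * hc n j k) := by
    unfold P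
    rw [mul_sum]
    apply sum_congr rfl
    intro k hk
    rw [mem_range] at hk
    rw [← mul_assoc, ← C_mul]
    congr 2
    have h3 := coeff_nat n j k hj hj2 (by omega)
    have h4 : ∏ i ∈ range (j - 1), ((n : ℝ) - k - i) = ((n - k).descFactorial (j - 1) : ℝ) := by
      rw [← prod_eq_desc (n - k) (j - 1) (by omega)]
      apply prod_congr rfl
      intro i _
      rw [Nat.cast_sub (by omega)]
    beta_reduce
    rw [h4]
    unfold A hc
    have h5 : ((n - j).factorial : ℝ) ≠ 0 := by positivity
    field_simp
    have h6 : (((n - j).choose k * (2 * (n - j - k)).descFactorial (n - 2 * j) *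
      (n - k).descFactorial (j - 1) : ℕ) : ℝ) =
      (((n - j).factorial * (catalan (n - k - j) * (n - k).choose k) : ℕ) : ℝ) := by
      rw [h3]
    push_cast at h6 ⊢
    linear_combination (-1 : ℝ) * h6
  rw [h2]
  exact h.C_mul _

end R123.Toric
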