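import Pool.Agent.R123.Toric.Pos

/-!
Real-rootedness for `j = 0`: orthogonality on `[0,1]`.
-/

namespace R123.Toric

open Polynomial Finset

theorem alt_sum (N : ℕ) (Q : ℝ[X]) (h : Q.natDegree < N) :
    ∑ k ∈ range (N + 1), (-1 : ℝ) ^ k * (N.choose k : ℝ) * Q.eval (k : ℝ) = 0 := by
  have h1 := Polynomial.fwdDiff_iter_eq_zero_of_degree_lt h
  have h2 := congrFun h1 0
  rw [fwdDiff_iter_eq_sum_shift] at h2
  have h3 : ∑ k ∈ range (N + 1), (-1 : ℝ) ^ k * (N.choose k : ℝ) * Q.eval (k : ℝ) =
      (-1) ^ N * ∑ k ∈ range (N + 1),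
        ((-1 : ℤ) ^ (N - k) * (N.choose k : ℤ)) • Q.eval ((0 : ℝ) + k • (1 : ℝ)) := by
    rw [mul_sum]
    apply sum_congr rfl
    intro k hk
    rw [mem_range] at hk
    have e : (-1 : ℝ) ^ N * (-1) ^ (N - k) = (-1) ^ k := by
      rw [← pow_add]
      have : N + (N - k) = 2 * (N - k) + k := by omega
      rw [this, pow_add, pow_mul]
      norm_num
    rw [zsmul_eq_mul]
    push_cast
    rw [zero_add, nsmul_eq_mul, mul_one, ← e]
    ring
  rw [h3, h2]
  simp

/-- `∏_{r<n, r≠i} (n+1+r-2X)` -/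
noncomputable def Qa (n i : ℕ) : ℝ[X] :=
  ∏ r ∈ (range n).erase i, (C ((n : ℝ) + 1 + r) - C 2 * X)

/-- `∏_{r<n} (n+1+r-2X)` -/
noncomputable def Qb (n : ℕ) : ℝ[X] :=
  ∏ r ∈ range n, (C ((n : ℝ) + 1 + r) - C 2 * X)

theorem deg_lin (a : ℝ) : (C a - C 2 * X : ℝ[X]).natDegree ≤ 1 := by
  compute_degree

theorem Qa_deg (n i : ℕ) (hi : i < n) : (Qa n i).natDegree < n := by
  have h1 : (Qa n i).natDegree ≤ ∑ r ∈ (range n).erase i, 1 := by
    unfold Qa
    refine (natDegree_prod_le _ _).trans (sum_le_sum fun r _ => deg_lin _)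
  rw [sum_const, card_erase_of_mem (mem_range.mpr hi), card_range] at h1
  simp only [smul_eq_mul, mul_one] at h1
  omega

theorem Qb_deg (n : ℕ) : (Qb n).natDegree ≤ n := by
  have h1 : (Qb n).natDegree ≤ ∑ r ∈ range n, 1 := by
    unfold Qb
    refine (natDegree_prod_le _ _).trans (sum_le_sum fun r _ => deg_lin _)
  simpa using h1

theorem Qb_eq (n i : ℕ) (hi : i < n) (x : ℝ) :
    (Qb n).eval x = ((n : ℝ) + 1 + i - 2 * x) * (Qa n i).eval x := by
  unfold Qb Qa
  rw [← mul_prod_erase (range n) _ (mem_range.mpr hi), eval_mul]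
  simp

theorem Qb_eval (n : ℕ) (x : ℝ) : (Qb n).eval x = ∏ r ∈ range n, ((n : ℝ) + 1 + r - 2 * x) := by
  unfold Qb
  rw [eval_prod]
  simp

theorem prod_up (m n : ℕ) : ∏ r ∈ range n, ((m : ℝ) + 1 + r) =
    ((m + n).descFactorial n : ℝ) := by
  induction n with
  | zero => simp
  | succ n ih =>
    rw [prod_range_succ, ih, ← add_assoc, Nat.succ_descFactorial_succ]
    push_cast
    ring

theorem Qb_small (n k : ℕ) (hk : 2 * k ≤ n) :
    (Qb n).eval (k : ℝ) = ((2 * (n - k)).descFactorial n : ℝ) := by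
  rw [Qb_eval]
  have h1 : 2 * (n - k) = (n - 2 * k) + n := by omega
  rw [h1, ← prod_up]
  apply prod_congr rfl
  intro r _
  rw [Nat.cast_sub hk]
  push_cast
  ring

theorem prod_down (n : ℕ) : ∀ m, m ≤ n →
    (∏ r ∈ range m, ((n : ℝ) + 1 - r)) * ((n + 1 - m).factorial : ℝ) =
      ((n + 1).factorial : ℝ) := by
  intro m
  induction m with
  | zero => simp
  | succ m ih =>
    intro hm
    rw [← ih (by omega), prod_range_succ]
    have h : n + 1 - m = (n + 1 - (m + 1)) + 1 := by omega
    rw [h, Nat.factorial_succ]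
    have h2 : ((n + 1 - (m + 1) + 1 : ℕ) : ℝ) = (n : ℝ) + 1 - m := by
      rw [← h, Nat.cast_sub (by omega)]
      push_cast
      ring
    rw [Nat.cast_mul, h2]
    ring

theorem Qb_last (n : ℕ) :
    (Qb n).eval ((n + 1 : ℕ) : ℝ) = (-1) ^ n * ((n + 1).factorial : ℝ) := by
  rw [Qb_eval]
  have h := prod_down n n le_rfl
  rw [show n + 1 - n = 1 by omega, Nat.factorial_one, Nat.cast_one, mul_one] at h
  rw [← h]
  rw [show (-1 : ℝ) ^ n = ∏ r ∈ range n, (-1 : ℝ) by simp, ← prod_mul_distrib]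
  apply prod_congr rfl
  intro r _
  push_cast
  ring

theorem Qb_mid (n k : ℕ) (h1 : n < 2 * k) (h2 : k ≤ n) : (Qb n).eval (k : ℝ) = 0 := by
  rw [Qb_eval]
  apply prod_eq_zero (i := 2 * k - n - 1)
  · rw [mem_range]; omega
  · rw [Nat.cast_sub (by omega), Nat.cast_sub (by omega)]
    push_cast
    ring

theorem Qa_mid (n i k : ℕ) (hi : i < n) (hpar : i % 2 = n % 2) (h1 : n < 2 * k) (h2 : k ≤ n) :
    (Qa n i).eval (k : ℝ) = 0 := by
  unfold Qa
  rw [eval_prod]
  apply prod_eq_zero (i := 2 * k - n - 1)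
  · rw [mem_erase, mem_range]
    constructor
    · omega
    · omega
  · simp only [eval_sub, eval_C, eval_mul, eval_X]
    rw [Nat.cast_sub (by omega), Nat.cast_sub (by omega)]
    push_cast
    ring

theorem coeff_zero_nat (n k : ℕ) (hk : 2 * k ≤ n) :
    (n + 1).choose k * (2 * (n - k)).descFactorial n =
      (n + 1).factorial * (catalan (n - k) * (n - k).choose k) := by
  obtain ⟨m, hm⟩ : ∃ m, m = n - k := ⟨_, rfl⟩
  rw [← hm]
  have e1 : (n + 1).choose k * k.factorial * (m + 1).factorial = (n + 1).factorial := by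
    have := Nat.choose_mul_factorial_mul_factorial (n := n + 1) (k := k) (by omega)
    rw [show n + 1 - k = m + 1 by omega] at this
    exact this
  have e2 : (n - 2 * k).factorial * (2 * m).descFactorial n = (2 * m).factorial := by
    have := Nat.factorial_mul_descFactorial (n := 2 * m) (k := n) (by omega)
    rw [show 2 * m - n = n - 2 * k by omega] at this
    exact this
  have e4 : m.choose k * k.factorial * (n - 2 * k).factorial = m.factorial := by
    have := Nat.choose_mul_factorial_mul_factorial (n := m) (k := k) (by omega)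
    rw [show m - k = n - 2 * k by omega] at this
    exact this
  have e5 := catalan_fac m
  have hpos : 0 < k.factorial * (m + 1).factorial * (n - 2 * k).factorial := by
    positivity
  apply Nat.eq_of_mul_eq_mul_right hpos
  calc _ = ((n + 1).choose k * k.factorial * (m + 1).factorial) *
        ((n - 2 * k).factorial * (2 * m).descFactorial n) := by ring
    _ = (n + 1).factorial * (2 * m).factorial := by rw [e1, e2]
    _ = (n + 1).factorial * (catalan m * (m + 1).factorial * m.factorial) := by rw [e5]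
    _ = (n + 1).factorial * (catalan m * (m + 1).factorial *
          (m.choose k * k.factorial * (n - 2 * k).factorial)) := by rw [e4]
    _ = _ := by ring

theorem A_zero (n k : ℕ) (hk : 2 * k ≤ n) :
    ((n + 1).factorial : ℝ) * A n 0 k =
      (-1) ^ k * ((n + 1).choose k : ℝ) * (Qb n).eval (k : ℝ) := by
  rw [Qb_small n k hk]
  unfold A
  have h : (((n + 1).choose k * (2 * (n - k)).descFactorial n : ℕ) : ℝ) =
      (((n + 1).factorial * (catalan (n - k) * (n - k).choose k) : ℕ) : ℝ) := by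
    rw [coeff_zero_nat n k hk]
  rw [show n - k - 0 = n - k by omega]
  push_cast at h ⊢
  linear_combination (-(-1 : ℝ) ^ k) * h

theorem split_sum (n : ℕ) (Q : ℝ[X]) (hmid : ∀ k : ℕ, n < 2 * k → k ≤ n → Q.eval (k : ℝ) = 0)
    (hd : Q.natDegree < n + 1) :
    ∑ k ∈ range (n / 2 + 1), (-1 : ℝ) ^ k * ((n + 1).choose k : ℝ) * Q.eval (k : ℝ) =
      (-1) ^ n * Q.eval ((n + 1 : ℕ) : ℝ) := by
  have h := alt_sum (n + 1) Q hd
  rw [sum_range_succ] at h
  have h1 : ∑ k ∈ range (n / 2 + 1), (-1 : ℝ) ^ k * ((n + 1).choose k : ℝ) * Q.eval (k : ℝ) =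
      ∑ k ∈ range (n + 1), (-1 : ℝ) ^ k * ((n + 1).choose k : ℝ) * Q.eval (k : ℝ) := by
    apply sum_subset
    · intro k hk
      rw [mem_range] at hk ⊢
      omega
    · intro k hk hk2
      rw [mem_range] at hk hk2
      rw [hmid k (by omega) (by omega)]
      ring
  rw [h1]
  rw [Nat.choose_self] at h
  rw [pow_succ] at h
  push_cast at h ⊢
  linear_combination h

theorem sum_A (n : ℕ) : ∑ k ∈ range (n / 2 + 1), A n 0 k = 1 := by
  have hf : ((n + 1).factorial : ℝ) ≠ 0 := by positivity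
  apply mul_left_cancel₀ hf
  rw [mul_sum]
  have h1 : ∀ k ∈ range (n / 2 + 1), ((n + 1).factorial : ℝ) * A n 0 k =
      (-1) ^ k * ((n + 1).choose k : ℝ) * (Qb n).eval (k : ℝ) := by
    intro k hk
    rw [mem_range] at hk
    exact A_zero n k (by omega)
  rw [sum_congr rfl h1, split_sum n (Qb n) (Qb_mid n) (by have := Qb_deg n; omega), Qb_last,
    ← mul_assoc, ← mul_pow]
  norm_num

theorem moment (n i : ℕ) (hi : i < n) (hpar : i % 2 = n % 2) :
    ∑ k ∈ range (n / 2 + 1), A n 0 k / ((n : ℝ) + 1 + i - 2 * k) = -(1 / ((n : ℝ) + 1 - i)) := by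
  have hf : ((n + 1).factorial : ℝ) ≠ 0 := by positivity
  have hi' : (i : ℝ) < n := by exact_mod_cast hi
  apply mul_left_cancel₀ hf
  rw [mul_sum]
  have h1 : ∀ k ∈ range (n / 2 + 1), ((n + 1).factorial : ℝ) *
      (A n 0 k / ((n : ℝ) + 1 + i - 2 * k)) =
      (-1) ^ k * ((n + 1).choose k : ℝ) * (Qa n i).eval (k : ℝ) := by
    intro k hk
    rw [mem_range] at hk
    have h2 := A_zero n k (by omega)
    rw [Qb_eq n i hi] at h2
    have hne : (n : ℝ) + 1 + i - 2 * k ≠ 0 := by
      have : (2 * k : ℝ) ≤ n := by exact_mod_cast (by omega : 2 * k ≤ n)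
      have h3 : (0 : ℝ) ≤ i := by positivity
      intro h
      linarith
    rw [← mul_div_assoc, h2]
    field_simp
  rw [sum_congr rfl h1, split_sum n (Qa n i) (fun k a b => Qa_mid n i k hi hpar a b)
    (by have := Qa_deg n i hi; omega)]
  have h4 := Qb_last n
  rw [Qb_eq n i hi] at h4
  have hne : (n : ℝ) + 1 - i ≠ 0 := by
    intro h
    linarith
  have h5 : ((n : ℝ) + 1 + i - 2 * ((n + 1 : ℕ) : ℝ)) = -((n : ℝ) + 1 - i) := by
    push_cast
    ring
  rw [h5] at h4
  have h6 : ((-1 : ℝ) ^ n) * (-1) ^ n = 1 := by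
    rw [← mul_pow]
    norm_num
  field_simp
  linear_combination (-(-1 : ℝ) ^ n) * h4 - ((n + 1).factorial : ℝ) * h6

/-- the polynomial in `w = u^2` -/
noncomputable def tz (n : ℕ) : ℝ[X] :=
  ∑ k ∈ range (n / 2 + 1), C (A n 0 k) * X ^ (n / 2 - k)

theorem tz_one (n : ℕ) : (tz n).eval 1 = 1 := by
  unfold tz
  rw [eval_finsetSum]
  simp [sum_A]

theorem exists_factor : ∀ (N : ℕ) (t : ℝ[X]), t ≠ 0 → t.natDegree ≤ N →
    ∃ q r : ℝ[X], t = q * r ∧ q.Monic ∧ q.Splits ∧ (∀ x, 1 ≤ x → 0 < q.eval x) ∧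
      (∀ x, 0 < x → x < 1 → r.eval x ≠ 0) := by
  intro N
  induction N with
  | zero =>
    intro t ht hd
    refine ⟨1, t, by ring, monic_one, Splits.one, fun x _ => by simp, fun x _ _ => ?_⟩
    have : t.natDegree = 0 := by omega
    rw [natDegree_eq_zero] at this
    obtain ⟨a, rfl⟩ := this
    simpa using ht
  | succ N ih =>
    intro t ht hd
    by_cases h : ∃ a, 0 < a ∧ a < 1 ∧ t.eval a = 0
    · obtain ⟨a, ha0, ha1, ha⟩ := h
      obtain ⟨t', rfl⟩ := dvd_iff_isRoot.mpr ha
      have ht' : t' ≠ 0 := right_ne_zero_of_mul ht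
      rw [natDegree_mul (X_sub_C_ne_zero a) ht', natDegree_X_sub_C] at hd
      obtain ⟨q, r, hqr, hm, hs, hpos, hr⟩ := ih t' ht' (by omega)
      refine ⟨(X - C a) * q, r, by rw [hqr]; ring, (monic_X_sub_C a).mul hm,
        (Splits.X_sub_C a).mul hs, fun x hx => ?_, hr⟩
      rw [eval_mul]
      apply mul_pos _ (hpos x hx)
      simp
      linarith
    · push Not at h
      exact ⟨1, t, by ring, monic_one, Splits.one, fun x _ => by simp, h⟩

theorem tz_coeff (n : ℕ) : (tz n).natDegree ≤ n / 2 := by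
  unfold tz
  apply natDegree_sum_le_of_forall_le
  intro k _
  exact (natDegree_C_mul_X_pow_le _ _).trans (Nat.sub_le _ _)

theorem integral_zero (n : ℕ) (q : ℝ[X]) (hq : q.natDegree < n / 2) :
    ∫ u in (0 : ℝ)..1, (u ^ (2 * (n % 2)) * ((tz n).eval (u ^ 2) * q.eval (u ^ 2)) +
      ∑ l ∈ range (n / 2), q.coeff l * u ^ (2 * (n / 2 - l))) = 0 := by
  have e1 : ∀ u : ℝ, u ^ (2 * (n % 2)) * ((tz n).eval (u ^ 2) * q.eval (u ^ 2)) =
      ∑ l ∈ range (n / 2), ∑ k ∈ range (n / 2 + 1),
        (q.coeff l * A n 0 k) * u ^ (2 * (n % 2) + 2 * (n / 2 - k) + 2 * l) := by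
    intro u
    rw [eval_eq_sum_range' hq (u ^ 2)]
    unfold tz
    rw [eval_finsetSum, sum_mul_sum, sum_comm, mul_sum]
    apply sum_congr rfl
    intro l _
    rw [mul_sum]
    apply sum_congr rfl
    intro k _
    simp only [eval_mul, eval_C, eval_pow, eval_X]
    rw [pow_add, pow_add, ← pow_mul, ← pow_mul]
    ring
  have e2 : ∫ u in (0 : ℝ)..1, (∑ l ∈ range (n / 2), ∑ k ∈ range (n / 2 + 1),
        (q.coeff l * A n 0 k) * u ^ (2 * (n % 2) + 2 * (n / 2 - k) + 2 * l)) =
      ∑ l ∈ range (n / 2), q.coeff l * (-(1 / (2 * ((n / 2 : ℕ) : ℝ) - 2 * l + 1))) := by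
    rw [intervalIntegral.integral_finsetSum]
    · apply sum_congr rfl
      intro l hl
      rw [mem_range] at hl
      rw [intervalIntegral.integral_finsetSum]
      · have hm := moment n (n % 2 + 2 * l) (by omega) (by omega)
        have e3 : ((n : ℝ) + 1 - ((n % 2 + 2 * l : ℕ) : ℝ)) =
            (2 * ((n / 2 : ℕ) : ℝ) - 2 * l + 1) := by
          have : (n : ℝ) = ((2 * (n / 2) + n % 2 : ℕ) : ℝ) := by
            rw [Nat.div_add_mod]
          rw [this]
          push_cast
          ring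
        rw [e3] at hm
        rw [← hm, mul_sum]
        apply sum_congr rfl
        intro k hk
        rw [mem_range] at hk
        rw [intervalIntegral.integral_const_mul, integral_pow]
        have e4 : ((2 * (n % 2) + 2 * (n / 2 - k) + 2 * l : ℕ) : ℝ) + 1 =
            (n : ℝ) + 1 + ((n % 2 + 2 * l : ℕ) : ℝ) - 2 * k := by
          have h5 : n = 2 * (n / 2) + n % 2 := (Nat.div_add_mod n 2).symm
          have h6 : 2 * (n % 2) + 2 * (n / 2 - k) + 2 * l + 1 + 2 * k =
            n + 1 + (n % 2 + 2 * l) := by omega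
          have h7 : ((2 * (n % 2) + 2 * (n / 2 - k) + 2 * l + 1 + 2 * k : ℕ) : ℝ) =
            ((n + 1 + (n % 2 + 2 * l) : ℕ) : ℝ) := by rw [h6]
          push_cast at h7 ⊢
          linarith
        rw [e4]
        simp
        ring
      · intro k _
        exact (Continuous.intervalIntegrable (by fun_prop) _ _)
    · intro l _
      exact (Continuous.intervalIntegrable (by fun_prop) _ _)
  have e5 : ∫ u in (0 : ℝ)..1, (∑ l ∈ range (n / 2), q.coeff l * u ^ (2 * (n / 2 - l))) =
      ∑ l ∈ range (n / 2), q.coeff l * (1 / (2 * ((n / 2 : ℕ) : ℝ) - 2 * l + 1)) := by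
    rw [intervalIntegral.integral_finsetSum]
    · apply sum_congr rfl
      intro l hl
      rw [mem_range] at hl
      rw [intervalIntegral.integral_const_mul, integral_pow]
      have e4 : ((2 * (n / 2 - l) : ℕ) : ℝ) + 1 = 2 * ((n / 2 : ℕ) : ℝ) - 2 * l + 1 := by
        rw [Nat.cast_mul, Nat.cast_sub (by omega)]
        push_cast
        ring
      rw [e4]
      simp
    · intro l _
      exact (Continuous.intervalIntegrable (by fun_prop) _ _)
  simp_rw [e1]
  rw [intervalIntegral.integral_add, e2, e5, ← sum_add_distrib]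
  · apply sum_eq_zero
    intro l _
    ring
  · exact (Continuous.intervalIntegrable (by fun_prop) _ _)
  · exact (Continuous.intervalIntegrable (by fun_prop) _ _)

theorem tz_splits (n : ℕ) : (tz n).Splits := by
  have ht : tz n ≠ 0 := by
    intro h
    have := tz_one n
    rw [h] at this
    simp at this
  obtain ⟨q, r, hqr, hm, hs, hpos, hr⟩ := exists_factor _ (tz n) ht le_rfl
  have hr0 : r ≠ 0 := by
    rintro rfl
    rw [mul_zero] at hqr
    exact ht hqr
  have hd := tz_coeff n
  have hd2 : (tz n).natDegree = q.natDegree + r.natDegree := by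
    conv_lhs => rw [hqr]
    exact natDegree_mul hm.ne_zero hr0
  by_cases hq : q.natDegree < n / 2
  · exfalso
    have h0 := integral_zero n q hq
    have hr1 : 0 < r.eval 1 := by
      have h1 := tz_one n
      rw [hqr, eval_mul] at h1
      have h2 := hpos 1 le_rfl
      by_contra h3
      push Not at h3
      nlinarith
    have hrp : ∀ x, 0 < x → x < 1 → 0 < r.eval x := by
      intro x hx0 hx1
      by_contra h3
      push Not at h3
      have := intermediate_value_Icc hx1.le (r.continuous.continuousOn (s := Set.Icc x 1))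
      obtain ⟨c, hc, hc0⟩ := this ⟨h3, hr1.le⟩
      rcases eq_or_lt_of_le hc.2 with h4 | h4
      · rw [h4] at hc0
        linarith
      · exact hr c (by linarith [hc.1]) h4 hc0
    have hp : 0 < ∫ u in (0 : ℝ)..1, (u ^ (2 * (n % 2)) * ((tz n).eval (u ^ 2) * q.eval (u ^ 2)) +
      ∑ l ∈ range (n / 2), q.coeff l * u ^ (2 * (n / 2 - l))) := by
      apply intervalIntegral.intervalIntegral_pos_of_pos_on
      · exact (Continuous.intervalIntegrable (by fun_prop) _ _)
      · intro u hu
        have hu0 : 0 < u := hu.1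
        have hu1 : u < 1 := hu.2
        have hw0 : 0 < u ^ 2 := by positivity
        have hw1 : u ^ 2 < 1 := by nlinarith
        apply add_pos_of_nonneg_of_pos
        · rw [hqr, eval_mul]
          have := hrp (u ^ 2) hw0 hw1
          have h9 : q.eval (u ^ 2) * r.eval (u ^ 2) * q.eval (u ^ 2) =
            (q.eval (u ^ 2)) ^ 2 * r.eval (u ^ 2) := by ring
          rw [h9]
          positivity
        · have h10 : ∑ l ∈ range (n / 2), q.coeff l * u ^ (2 * (n / 2 - l)) =
              u ^ (2 * (n / 2)) * q.eval ((u ^ 2)⁻¹) := by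
            rw [eval_eq_sum_range' hq, mul_sum]
            apply sum_congr rfl
            intro l hl
            rw [mem_range] at hl
            have h11 : u ^ (2 * (n / 2)) = u ^ (2 * (n / 2 - l)) * (u ^ 2) ^ l := by
              rw [← pow_mul, ← pow_add]
              congr 1
              omega
            rw [h11, inv_pow]
            field_simp
          rw [h10]
          apply mul_pos (by positivity)
          apply hpos
          rw [one_le_inv₀ hw0]
          exact hw1.le
      · norm_num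
    linarith
  · have h1 : r.natDegree = 0 := by omega
    rw [hqr]
    exact hs.mul (Splits.of_natDegree_eq_zero h1)

end R123.Toric
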